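import Pool.Agent.EGF.StmtsV

/-!
# Squad EGF, row RS1: one record
-/

set_option autoImplicit false

namespace Pool.Agent.EGF.H49

open Finset Pool.Agent.EGF

theorem rs1 : Rs1Stmt := by
  classical
  intro V _ k c W q T β B hβ hB hW hne
  obtain ⟨U, hU, hmax⟩ := Finset.exists_max_image
    (W.powerset.filter fun U => U.Nonempty ∧ Real.log W.card - Real.log U.card ≤ B)
    (fun U : Finset V => Real.log U.card - β * Real.log (spt c q U T).card)
    ⟨W, by
      rw [Finset.mem_filter, Finset.mem_powerset]
      refine ⟨Finset.Subset.refl W, hW, ?_⟩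
      rw [sub_self]
      exact hB⟩
  rw [Finset.mem_filter, Finset.mem_powerset] at hU
  obtain ⟨hUW, hUne, hUB⟩ := hU
  refine ⟨U, hUW, hUne, hUB, ?_, ?_⟩
  · have h := hmax W (by
      rw [Finset.mem_filter, Finset.mem_powerset]
      refine ⟨Finset.Subset.refl W, hW, ?_⟩
      rw [sub_self]
      exact hB)
    have h' : Real.log W.card - β * Real.log (spt c q W T).card
        ≤ Real.log U.card - β * Real.log (spt c q U T).card := h
    linarith
  · intro A hA hAne hAB
    have hAW : A ⊆ W := hA.trans hUW
    have hAB' : Real.log W.card - Real.log A.card ≤ B := by linarith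
    refine ⟨hne A hAW hAne hAB', ?_⟩
    have h := hmax A (by
      rw [Finset.mem_filter, Finset.mem_powerset]
      exact ⟨hAW, hAne, hAB'⟩)
    have h' : Real.log A.card - β * Real.log (spt c q A T).card
        ≤ Real.log U.card - β * Real.log (spt c q U T).card := h
    linarith

end Pool.Agent.EGF.H49
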